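import Pool.Agent.R900.AC.Gap

set_option autoImplicit false

/-!
# Unique games are not hard under constant-depth reductions

The conjecture says that telling the unique games of value at least `1 - ε` from those of value at
most `δ` is `NP`-hard under many-one reductions. Most `NP`-hardness proofs give reductions that are
computed by circuits of constant depth (`AC0`), or even by projections. Here it is shown that this is
impossible for gap unique games: a many-one reduction from parity (and so a fortiori from any
`NP`-hard problem to which parity reduces by projections) to the promise problem `UG_q(ε, δ)` that is
computed by circuits of constant depth needs exponential size, for all `ε + δ < 1` and all alphabet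
sizes `q`. So a proof of the conjecture must use a nonlocal step (like the low-degree or linearity
codes in the PCP theorem) that creates the gap, in every reduction.

The output of the reduction is a list of slots `p`. Every slot is empty or contains an edge (two
vertices and a permutation of the alphabet), which is determined in an arbitrary way (`dec p`) by `b`
output bits of the circuit. So both usual encodings of games are included: a list of edges, each one
encoded by `b` bits, and the table of all possible edges, with one bit for each of them (`b = 1`).
The definitions `slots`, `filled`, `satn` are in `Pool/Agent/R900/AC/Gap.lean`; circuits (`Circuit`,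
`nodeVal`, `nodeDepth`) are defined in `Pool/Agent/H568R2/Defs.lean`.

Idea of the proof. A game of value at least `1 - ε` and a game of value at most `δ` differ in at least
`(1 - ε - δ) / 2` times the total number of their edges. Under a random restriction which leaves many
variables free all output bits become decision trees of small depth `s`, so that at every input at
most `b s` of the free variables are sensitive for a given slot. Count the triples of an input, a
free variable and an edge which disappears when the variable is flipped. (For small-set expansion
this is the starting result `MP_8d8c46_lc.ConstantDepthReductions`; here there are slots with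
several bits, constraints instead of graphs, and the bound does not depend on the instance size.)
-/

namespace Pool.Agent.Results.MP_325f1f_lc.ConstantDepthReductions

open Finset DomAC0 Pool.Agent.R900.AC
open scoped Classical

/-- An edge of a unique game with the vertices `U` and `V` and the alphabet `Fin q`: its vertices and
the permutation which maps the label of the first to the label of the second vertex. -/
abbrev Edge (U V : Type) (q : ℕ) : Type := U × V × Equiv.Perm (Fin q)

/-- The labelings `l.1` of `U` and `l.2` of `V` satisfy the edge `e`. -/
def Sat {U V : Type} {q : ℕ} (l : (U → Fin q) × (V → Fin q)) (e : Edge U V q) : Prop :=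
  e.2.2 (l.1 e.1) = l.2 e.2.1

/-- The value of the game in the slots `f` is at least `1 - ε`: some labeling satisfies at least the
fraction `1 - ε` of the edges. -/
def ValueAtLeast {P U V : Type} [Fintype P] {q : ℕ} (ε : ℝ) (f : P → Option (Edge U V q)) : Prop :=
  ∃ l, (1 - ε) * (filled f : ℝ) ≤ satn Sat f l

/-- The value of the game in the slots `f` is at most `δ`: every labeling satisfies at most the
fraction `δ` of the edges. -/
def ValueAtMost {P U V : Type} [Fintype P] {q : ℕ} (δ : ℝ) (f : P → Option (Edge U V q)) : Prop :=
  ∀ l, (satn Sat f l : ℝ) ≤ δ * filled f

/-- For every depth `h` there is `X₀` with the following property. Let `C` be a circuit with `N`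
inputs, with NOT gates and AND and OR gates of unbounded fan-in. For every slot `p` of a finite set
let `out p j`, `j < b`, be nodes of depth at most `h`, whose values determine the content of the slot
by a decoder `dec p`. Let `ε, δ ≥ 0` and `ε + δ < 1`. If for every input there is at least one edge,
the value of the game is at least `1 - ε` for every input with an even number of ones and at most
`δ` for every input with an odd number of ones, and if `X = (1 - ε - δ) N / b ≥ X₀`, then `C` has at
least `2 ^ (X ^ (1 / (h + 1)) / 100)` gates. -/
theorem result (h : ℕ) : ∃ X₀ : ℝ, ∀ (N : ℕ) (C : Circuit (Fin N)) (P U V : Type) [Fintype P]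
    (q b : ℕ) (out : P → Fin b → Fin N ⊕ Fin C.size)
    (dec : P → (Fin b → Bool) → Option (Edge U V q)) (ε δ : ℝ),
    (∀ p j, C.nodeDepth (out p j) ≤ h) → 0 ≤ ε → 0 ≤ δ → ε + δ < 1 →
    (∀ x, 1 ≤ filled (slots C out dec x)) →
    (∀ x, ¬ Odd (univ.filter fun i => x i = true).card → ValueAtLeast ε (slots C out dec x)) →
    (∀ x, Odd (univ.filter fun i => x i = true).card → ValueAtMost δ (slots C out dec x)) →
    X₀ ≤ (1 - ε - δ) * N / b →
    (2 : ℝ) ^ (((1 - ε - δ) * N / b) ^ (1 / (h + 1 : ℝ)) / 100) ≤ C.size := by
  obtain ⟨X₀, -, hX⟩ := main h
  refine ⟨X₀, ?_⟩
  intro N C P U V _ q b out dec ε δ h1 h2 h3 h4 h5 h6 h7 h8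
  refine hX C out dec (1 - ε - δ) h1 (by linarith) h5 (fun x y hx hy => ?_) h8
  exact differ Sat _ _ ε δ h2 h3 (h6 x hx) (h7 y hy)

end Pool.Agent.Results.MP_325f1f_lc.ConstantDepthReductions
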