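import Pool.Agent.R900.FN.Games

/-!
# The Unique Games Conjecture for circuits with unreliable negations

A unique game with vertex sets of size `N` and alphabet `[q]` is given by bits: for all vertices `u`
and `v`, all permutations `π` of the labels and all tags `j < K`, the bit of the position
`(u, v, π, j)` tells whether the game has an edge from `u` to `v` with the constraint `π` and the
tag `j`. Only games without repeated edges are considered (no two tags for the same `u, v, π`); the
tag has no meaning.

The model: randomised circuits whose inputs are these bits and their negations, with gates that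
compute arbitrary nondecreasing real functions of two arguments. All circuits with AND, OR and NOT
gates can be brought into this form by doubling their size. No bound on the depth is assumed. A
randomised circuit is a finite nonempty family of circuits from which one is chosen uniformly at
random.

Faults: each negated input (the information that there is no such edge at a position) is stuck at
`0`, independently with probability `1 / D`. The other inputs are reliable.

Result: for all alphabet sizes `q ≥ 2`, all `δ > 1 / q` and all large `N` there is `m > 0` such that
for all `D`, all `K ≥ D (2 log N + q log q + 4)` and all `ε ≥ N ^ (-1 / 139)` the following holds.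
Randomised circuits which accept the games with `m` edges and value at most `δ` with probability at
least `4 / 5` under faults, and the games with at least `m` edges of which some labeling violates at
most `ε m` (so that their value is at least `1 - ε`) with probability at most `1 / 4` without faults,
need `(2 ^ (N ^ (1 / 139)) - 2) / 3` gates. For `ε + δ < 1` there is a monotone function that tells
the two sets of games apart, that is, a (large) circuit which does not use negated inputs and so is
correct for all faults.

* So the gap problem of the conjecture needs exponential size, for every alphabet, every soundness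
  larger than that of a random labeling and even for completeness close to one, if an arbitrarily
  small constant fraction `1 / D` of the negated inputs is unreliable; `K = O(D log N)` tags are
  enough. Without faults this would be an unconditional form of the conjecture (for circuits, instead
  of NP-hardness).
* For `D = 1` all negated inputs are faulty: this is the case of monotone circuits, the starting
  result `MonotoneCircuits`, which is used in the proof.
* For `ε = 0` the statement fails, since propagation of labels is done by monotone circuits of
  polynomial size.

The proof: the edges of a game without tags get random tags. The tagged game shows only the tags of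
its edges, and the positions that the other constraints would get are as good as random faulty
inputs. So all negated inputs that depend on the game without tags can be replaced by `0`, and this
gives a monotone randomised circuit for the games without tags. (For 2-to-1 games this is the
starting result `MP_ec946a_lc.FaultyNegations`.)
-/

set_option autoImplicit false

namespace Pool.Agent.Results.MP_325f1f_lc.FaultyNegations

open Finset

/-- A circuit with the gates `0, ..., s - 1` whose inputs are the bits of the positions `e` in `E` and
their negations: `(e, true)` stands for the bit of `e` and `(e, false)` for its negation. Gate `i`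
has `w i ≤ 2` inputs, namely `a i j`, each a literal (`0` or `1`) or an earlier gate; it computes a
nondecreasing function `op i` of real numbers, and its value on the values `y` of the literals is
`val y i`. The circuit accepts if the value of gate `out` is at least `τ`. -/
structure LiteralCircuit (E : Type) where
  s : ℕ
  w : Fin s → ℕ
  a : (i : Fin s) → Fin (w i) → (E × Bool) ⊕ Fin s
  op : (i : Fin s) → (Fin (w i) → ℝ) → ℝ
  val : (E × Bool → Bool) → Fin s → ℝ
  out : Fin s
  τ : ℝ
  earlier : ∀ i j m, a i j = Sum.inr m → m < i
  mono : ∀ i, w i ≤ 2 ∧ Monotone (op i)
  spec : ∀ y i, val y i = op i (fun j =>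
    Sum.elim (fun p => if y p = true then (1 : ℝ) else 0) (val y) (a i j))

/-- The positions `((u, v, π), j)`: an edge from `u` to `v` with the tag `j` and the constraint that
the permutation `π` maps the label of `u` to the label of `v`. -/
abbrev Position (N q K : ℕ) : Type := (Fin N × Fin N × Equiv.Perm (Fin q)) × Fin K

/-- The game (the set of the positions `e` with `x e = true`) has no repeated edge (two edges which
differ in their tags only). -/
def NoRepetition {N q K : ℕ} (x : Position N q K → Bool) : Prop :=
  ∀ e e', x e = true → x e' = true → e.1 = e'.1 → e = e'

/-- The labeling satisfies the edge. -/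
def Satisfies {N q K : ℕ} (A B : Fin N → Fin q) (e : Position N q K) : Prop :=
  e.1.2.2 (A e.1.1) = B e.1.2.1

open Classical in
/-- Unique games with `m` edges of which every labeling satisfies at most `δ m`: their value is at
most `δ`. -/
def No {N q K : ℕ} (m : ℕ) (δ : ℝ) (x : Position N q K → Bool) : Prop :=
  NoRepetition x ∧ (univ.filter fun e => x e = true).card = m ∧ ∀ A B : Fin N → Fin q,
    ((univ.filter fun e => x e = true ∧ Satisfies A B e).card : ℝ) ≤ δ * m

open Classical in
/-- Unique games with at least `m` edges of which some labeling violates at most `ε m`: their value is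
at least `1 - ε`. -/
def Yes {N q K : ℕ} (m : ℕ) (ε : ℝ) (x : Position N q K → Bool) : Prop :=
  NoRepetition x ∧ m ≤ (univ.filter fun e => x e = true).card ∧ ∃ A B : Fin N → Fin q,
    ((univ.filter fun e => x e = true ∧ ¬ Satisfies A B e).card : ℝ) ≤ ε * m

open Classical in
/-- The values of the literals on the game `x` if the negated inputs of the positions in `Z` are
stuck at `0`. -/
noncomputable def literals {E : Type} (x : E → Bool) (Z : Set E) : E × Bool → Bool :=
  fun p => if p.2 = true then x p.1 else if p.1 ∈ Z then false else !x p.1

/-- The circuit accepts the game `x` if the negated inputs of the positions in `Z` are stuck at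
`0`. -/
def LiteralCircuit.Accepts {E : Type} (C : LiteralCircuit E) (x : E → Bool) (Z : Set E) : Prop :=
  C.τ ≤ C.val (literals x Z) C.out

/-- The probability that the game `x` is accepted by a circuit that is chosen uniformly at random
from the family `C`, without faults. -/
noncomputable def acceptance {E R : Type} (C : R → LiteralCircuit E) (x : E → Bool) : ℝ :=
  (Nat.card {ρ : R // (C ρ).Accepts x ∅} : ℝ) / Nat.card R

/-- The probability that the game `x` is accepted by a circuit that is chosen uniformly at random
from the family `C`, if each negated input is stuck at `0` independently with probability `1 / D`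
(each position `e` gets a random number `f e` from `0` to `D - 1`, and `0` means a fault). -/
noncomputable def faultyAcceptance {E R : Type} (C : R → LiteralCircuit E) (D : ℕ)
    (x : E → Bool) : ℝ :=
  (Nat.card {v : R × (E → Fin D) // (C v.1).Accepts x {e | (v.2 e : ℕ) = 0}} : ℝ) /
    Nat.card (R × (E → Fin D))

/-- For all `q ≥ 2` and `δ > 1 / q` there is `N0` such that for all `N ≥ N0` there is `m > 0` such that
for all `D ≥ 1`, `K ≥ D (2 log N + q log q + 4)` and `ε ≥ N ^ (-1 / 139)` the following holds.
(1) If a finite nonempty family of circuits on literals with nondecreasing real gates of fan-in at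
most two and with at most `s` gates accepts every unique game (with `N + N` vertices, alphabet `[q]`
and tags `j < K` at the edges) with `m` edges and value at most `δ` with probability at least
`4 / 5`, even if each negated input is stuck at `0` independently with probability `1 / D`, and
every game with at least `m` edges of which some labeling violates at most `ε m` with probability
at most `1 / 4` (without faults), then `2 ^ (N ^ (1 / 139)) ≤ 3 s + 2`.
(2) If `ε + δ < 1`, then some monotone function of the (not negated) bits is true for the former and
false for the latter games. -/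
theorem result (q : ℕ) (hq : 2 ≤ q) (δ : ℝ) (hδ : 1 / (q : ℝ) < δ) :
    ∃ N0 : ℕ, ∀ N : ℕ, N0 ≤ N → ∃ m : ℕ, 0 < m ∧ ∀ D K : ℕ, 1 ≤ D →
      D * (2 * Real.log N + q * Real.log q + 4) ≤ K →
      ∀ ε : ℝ, (N : ℝ) ^ (-(1 / 139) : ℝ) ≤ ε →
      (∀ (R : Type) [Finite R] [Nonempty R] (C : R → LiteralCircuit (Position N q K)) (s : ℕ),
        (∀ ρ, (C ρ).s ≤ s) →
        (∀ x, No m δ x → 4 / 5 ≤ faultyAcceptance C D x) →
        (∀ x, Yes m ε x → acceptance C x ≤ 1 / 4) →
        (2 : ℝ) ^ ((N : ℝ) ^ (1 / 139 : ℝ)) ≤ 3 * s + 2) ∧
      (ε + δ < 1 → ∃ F : (Position N q K → Bool) → Prop,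
        (∀ x y, (∀ e, x e = true → y e = true) → F x → F y) ∧
        ∀ x, (No m δ x → F x) ∧ (Yes m ε x → ¬ F x)) := by
  classical
  obtain ⟨N0, H⟩ := Pool.Agent.R900.FN.uni_fault q hq δ hδ
  refine ⟨N0, ?_⟩
  intro N hN
  obtain ⟨m, hm, H⟩ := H N hN
  refine ⟨m, hm, ?_⟩
  intro D K hD hK ε hε
  refine ⟨?_, fun h => ?_⟩
  swap
  · obtain ⟨F, h1, h2⟩ := Pool.Agent.R900.FN.mono_exists (N := N) (q := q) (K := K) hm δ ε h
    refine ⟨F, h1, fun x => ⟨fun h3 => (h2 x).1 ⟨h3.1, ?_, fun A B => ?_⟩,
      fun h3 => (h2 x).2 ⟨h3.1, ?_, ?_⟩⟩⟩
    · have h4 := h3.2.1
      convert h4
    · have h4 := h3.2.2 A B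
      unfold Satisfies at h4
      convert h4
    · have h4 := h3.2.1
      convert h4
    · obtain ⟨A, B, h4⟩ := h3.2.2
      refine ⟨A, B, ?_⟩
      unfold Satisfies at h4
      convert h4
  intro R _ _ C s hs h1 h2
  let _ : Fintype R := Fintype.ofFinite R
  have hR : (0 : ℝ) < Fintype.card R := by exact_mod_cast Fintype.card_pos
  have hDR : (0 : ℝ) < D := by exact_mod_cast hD
  have hlit : ∀ (x : Position N q K → Bool) (Z : Set (Position N q K)),
      Pool.Agent.Y630.TF.lit x Z = literals x Z := by
    intro x Z
    funext q
    unfold Pool.Agent.Y630.TF.lit literals
    by_cases hq : q.2 = true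
    · rw [if_pos hq, if_pos hq]
    · rw [if_neg hq, if_neg hq]
      by_cases hZ : q.1 ∈ Z
      · simp [hZ]
      · simp [hZ]
  set C' : R → Pool.Agent.W969.MC.RC (Position N q K × Bool) := fun ρ => ⟨(C ρ).s, ∅, (C ρ).w,
    (C ρ).a, (C ρ).op, fun _ _ => 0, (C ρ).val, (C ρ).out, (C ρ).τ, (C ρ).earlier,
    fun i _ => (C ρ).mono i, fun i hi => absurd hi (Finset.notMem_empty i), (C ρ).spec⟩ with hC'
  refine H D K hD hK ε hε R C' s (fun _ => rfl) hs (fun x hx => ?_) (fun x hx => ?_)
  · have h3 := h1 x ⟨hx.1, by
      have h4 := hx.2.1
      convert h4, fun A B => by
      have h4 := hx.2.2 A B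
      unfold Satisfies
      convert h4⟩
    unfold faultyAcceptance at h3
    rw [le_div_iff₀ (by
      rw [Nat.card_eq_fintype_card, Fintype.card_prod, Fintype.card_fun, Fintype.card_fin]
      push_cast
      positivity)] at h3
    rw [Nat.card_eq_fintype_card (α := R × (Position N q K → Fin D)), Fintype.card_prod,
      Fintype.card_fun, Fintype.card_fin] at h3
    refine (le_of_eq ?_).trans (h3.trans (le_of_eq ?_))
    · push_cast
      rfl
    congr 1
    show Nat.card ↥{v : R × (Position N q K → Fin D) |
      (C v.1).Accepts x {c | (v.2 c : ℕ) = 0}} = _
    rw [Nat.card_coe_set_eq]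
    congr 1
    ext v
    show (C v.1).τ ≤ (C v.1).val (literals x {c | (v.2 c : ℕ) = 0}) (C v.1).out ↔
      (C v.1).τ ≤ (C v.1).val (Pool.Agent.Y630.TF.lit x (Pool.Agent.Y630.NW.Flt v.2)) (C v.1).out
    rw [hlit]
    rfl
  · have h3 := h2 x ⟨hx.1, by
      have h4 := hx.2.1
      convert h4, by
      obtain ⟨A, B, h4⟩ := hx.2.2
      refine ⟨A, B, ?_⟩
      unfold Satisfies
      convert h4⟩
    unfold acceptance at h3
    rw [div_le_iff₀ (by rw [Nat.card_eq_fintype_card]; exact hR),
      Nat.card_eq_fintype_card (α := R)] at h3
    refine (le_of_eq ?_).trans h3
    congr 1
    show _ = Nat.card ↥{ρ : R | (C ρ).Accepts x ∅}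
    rw [Nat.card_coe_set_eq]
    congr 1
    ext ρ
    show (C ρ).τ ≤ (C ρ).val (Pool.Agent.Y630.TF.lit x ∅) (C ρ).out ↔
      (C ρ).τ ≤ (C ρ).val (literals x ∅) (C ρ).out
    rw [hlit]

end Pool.Agent.Results.MP_325f1f_lc.FaultyNegations
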