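import Pool.Agent.R900.UG.Main

set_option autoImplicit false

/-!
# Local reductions from gap 3-SAT to unique games must be large

The known NP-hardness proofs for Label Cover and its relatives are local reductions from gap 3-SAT:
for every assignment of the variables there are honest labelings, each label of which depends on few
(at most `d`) of the variables, and the number of the edges which the honest labelings satisfy can
be checked locally. `Represents F d ε u v π` says this for the formula `F`, the unique game with the
edges `(u e, v e)` and the constraints `π e`, and the completeness `1 - ε`: the number of satisfied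
edges is `(1 - ε) |E| + ∑ p, g p`, where each term `g p` depends on at most `d` variables and is
nonnegative if the clauses of `F` inside this set of variables are satisfied. (For instance, if the
edges are partitioned into gadgets, and for every gadget `p` the honest labels of its vertices depend
on `d` variables and satisfy at least `(1 - ε) |E_p|` edges of `E_p` whenever the clauses inside this
set of variables are satisfied, then let `g p` be the difference.)

The theorem: there are formulas `F` in `n` variables with `O(n)` clauses, at most a fraction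
`7 / 8 + η` of which can be satisfied, such that for every unique game which represents `F` with
locality `d` and completeness `1 - ε` (with any alphabet):
* if no labeling satisfies a fraction `1 - γ` of the edges then the number of the vertices is at least
  `(c n / (d log (2 / γ))) ^ (1 / r)` for all `r ≤ 1` with `2 ^ 30 ε log (2 / r) ≤ r γ ^ 2`, so the
  exponent can be taken as `γ ^ 2 / (C ε log (2 / ε))`;
* if no labeling satisfies a fraction `e ^ (-l) / 2 ^ 13` then each side has more than
  `(c n / d) ^ (1 / (8 x log (2 / x)))` vertices, `x = 24576 ε / l`.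
So a local reduction which proves hardness of unique games for value `1 - ε` against value `δ < 1` has
size at least `n ^ (c / (ε log (1 / ε)))`, and even `n ^ (c y / log y)`, `y = log (1 / δ) / ε`, for
small `δ`. In a reduction of polynomial size some label or some local check must depend on
`n ^ (1 - O(ε log (1 / ε)))` variables. This is unconditional.

Proof: random formulas have a pseudo-expectation of linear degree which satisfies all clauses.
Composed with the honest labelings it is a pseudo-expectation of degree `n / d`, up to a constant,
on the labelings of the game, of value at least `1 - ε`. The first part uses the rounding theorem of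
the starting result `SharpTradeoff` (`Pool/Agent/TH522/UG`). The second part uses a rounding theorem
for small soundness (`Pool/Agent/R900/UG/Small.lean`, from the rounding of a part
`Pool/Agent/TH522/US/Round.lean`). The definition of locality is that of
`Pool/Agent/TH700/UG/Defs.lean`.
-/

namespace Pool.Agent.Results.MP_325f1f_lc.LocalReductions

open Finset
open Pool.Agent.W888.GX (Clause Satisfies falsified)
open Pool.Agent.TH700.UG (Reads SatOn)

/-- The number of the edges which the labelings `X` and `Y` of the two sides satisfy, in the unique
game with the edges `(u e, v e)` and the constraints `π e (X (u e)) = Y (v e)`. -/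
def satisfied {U W A E : Type} [Fintype E] [DecidableEq A] (u : E → U) (v : E → W)
    (π : E → Equiv.Perm A) (X : U → A) (Y : W → A) : ℕ :=
  (univ.filter fun e => π e (X (u e)) = Y (v e)).card

/-- The formula `F` is represented in the unique game with locality `d` and completeness `1 - ε`:
every assignment `z` of the variables has honest labelings `encU z` and `encW z`, each label of which
depends on at most `d` of the variables, and they satisfy `(1 - ε) |E| + ∑ p, g p z` edges, where the
number `g p z` depends on the values of `z` on a set `T p` of at most `d` variables and is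
nonnegative if `z` satisfies the clauses of `F` inside `T p`. -/
def Represents {n k : ℕ} {I U W A E : Type} [Fintype E] [DecidableEq A] (F : I → Clause k n)
    (d : ℕ) (ε : ℝ) (u : E → U) (v : E → W) (π : E → Equiv.Perm A) : Prop :=
  ∃ (encU : (Fin n → ZMod 2) → U → A) (encW : (Fin n → ZMod 2) → W → A)
    (P : Type) (_ : Fintype P) (T : P → Finset (Fin n)) (g : P → (Fin n → ZMod 2) → ℝ),
    (∀ i, ∃ S : Finset (Fin n), S.card ≤ d ∧ Reads (fun z => encU z i) S) ∧
    (∀ j, ∃ S : Finset (Fin n), S.card ≤ d ∧ Reads (fun z => encW z j) S) ∧
    (∀ p, (T p).card ≤ d ∧ Reads (g p) (T p) ∧ ∀ z, SatOn F (T p) z → 0 ≤ g p z) ∧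
    ∀ z, (satisfied u v π (encU z) (encW z) : ℝ) = (1 - ε) * Fintype.card E + ∑ p, g p z

theorem rep {n k d : ℕ} {I U W A E : Type} [Fintype E] [DecidableEq A] {F : I → Clause k n}
    {ε : ℝ} {u : E → U} {v : E → W} {π : E → Equiv.Perm A} (h : Represents F d ε u v π) :
    Pool.Agent.TH700.UG.Represents F d ε (fun e => (Sum.inl (u e) : U ⊕ W))
      (fun e => (Sum.inr (v e) : U ⊕ W)) π := by
  obtain ⟨encU, encW, P, hP, T, g, h1, h2, h3, h4⟩ := h
  refine ⟨fun z => Sum.elim (encU z) (encW z), P, hP, T, g, ?_, h3, fun z => ?_⟩
  · rintro (i | j)
    · exact h1 i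
    · exact h2 j
  · have h5 := h4 z
    have h6 := Finset.card_filter_add_card_filter_not (s := (univ : Finset E))
      (p := fun e => π e (encU z (u e)) = encW z (v e))
    rw [card_univ] at h6
    have h7 : ((univ.filter fun e => π e (encU z (u e)) = encW z (v e)).card : ℝ) +
        ((univ.filter fun e => ¬ π e (encU z (u e)) = encW z (v e)).card : ℝ) =
        Fintype.card E := by exact_mod_cast h6
    unfold satisfied at h5
    show (((univ.filter fun e => π e (encU z (u e)) ≠ encW z (v e)).card : ℕ) : ℝ) = _
    linarith

/-- For every `η > 0` there are `M` and `c > 0` such that for all large `n` there is a formula `F` in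
`n` variables with at least `n` and at most `M n` clauses, with three literals each, every assignment
of which falsifies at least a fraction `1 / 8 - η` of the clauses, and with the following property.
Let the unique game with the vertices `U` and `W` represent `F` with locality `d ≥ 1` and
completeness `1 - ε`, `ε > 0`.
(1) If `0 < γ < 1`, `0 < r ≤ 1`, `2 ^ 30 ε log (2 / r) ≤ r γ ^ 2` and all labelings satisfy less than
`(1 - γ) |E|` edges then `c n / d < log (2 / γ) (|U| + |W|) ^ r`.
(2) If `ε ≤ 2 ^ (-18)`, `l > 0`, `x = 24576 ε / l ≤ 1`, `e ^ l ≤ c n / d` and all labelings satisfy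
less than `e ^ (-l) / 2 ^ 13 |E|` edges then `c n / d < |U| ^ (8 x log (2 / x))`. -/
theorem result (η : ℝ) (hη : 0 < η) :
    ∃ M : ℕ, 1 ≤ M ∧ ∃ c : ℝ, 0 < c ∧ ∃ n₀ : ℕ, ∀ n : ℕ, n₀ ≤ n →
      ∃ (I : Type) (_ : Fintype I) (F : I → Clause 3 n),
        n ≤ Fintype.card I ∧ Fintype.card I ≤ M * n ∧
        (∀ z, (1 / 8 - η) * (Fintype.card I : ℝ) ≤ (falsified F z : ℝ)) ∧
        ∀ (d : ℕ) (ε : ℝ) (U W E A : Type) [Fintype U] [Fintype W] [Fintype E] [Fintype A]
          [DecidableEq A] (u : E → U) (v : E → W) (π : E → Equiv.Perm A),
          1 ≤ d → 0 < ε → Represents F d ε u v π →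
          (∀ r γ : ℝ, 0 < r → r ≤ 1 → 0 < γ → γ < 1 →
            2 ^ 30 * (ε * Real.log (2 / r)) ≤ r * γ ^ 2 →
            (∀ (X : U → A) (Y : W → A), (satisfied u v π X Y : ℝ) < (1 - γ) * Fintype.card E) →
            c * n / d < Real.log (2 / γ) * ((Fintype.card U : ℝ) + Fintype.card W) ^ r) ∧
          ∀ l x : ℝ, 2 ^ 18 * ε ≤ 1 → 0 < l → x = 24576 * ε / l → x ≤ 1 →
            Real.exp l ≤ c * n / d →
            (∀ (X : U → A) (Y : W → A), (satisfied u v π X Y : ℝ) <
              Real.exp (-l) / 2 ^ 13 * Fintype.card E) →
            c * n / d < (Fintype.card U : ℝ) ^ (8 * (x * Real.log (2 / x))) := by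
  obtain ⟨M, hM, c0, hc0, n0, hn0⟩ := Pool.Agent.TH843.LR.exists_formula_card η hη
  refine ⟨M, hM, c0 / 2 ^ 80, by positivity, n0, fun n hn => ?_⟩
  obtain ⟨I, hI, F, D0, L, hcard0, hcard, hfar, hD0, hL, hF⟩ := hn0 n hn
  refine ⟨I, hI, F, hcard0, hcard, hfar, ?_⟩
  intro d ε U W E A _ _ _ _ _ u v π hd hε hR
  have hR' := rep hR
  refine ⟨fun r γ hr hr1 hγ hγ1 hεγ hno => ?_, fun l x hε1 hl hx hx1 hln hno => ?_⟩
  · have h1 := Pool.Agent.R900.UG.red_gamma c0 hc0 hL hD0 F hF r γ ε hr hr1 hγ hγ1 hε hεγ
      _ _ π hd hR' (fun x => hno (fun i => x (Sum.inl i)) (fun j => x (Sum.inr j)))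
    rw [Fintype.card_sum] at h1
    push_cast at h1
    refine lt_of_le_of_lt ?_ h1
    have hdR : (0 : ℝ) < d := by exact_mod_cast hd
    refine div_le_div_of_nonneg_right ?_ hdR.le
    refine mul_le_mul_of_nonneg_right ?_ (Nat.cast_nonneg _)
    exact div_le_div_of_nonneg_left hc0.le (by norm_num) (by norm_num)
  · classical
    have h1 := Pool.Agent.R900.UG.red_small c0 hc0 hL hD0 F hF l x ε hl hx hx1 hε hε1
      _ _ π hd hln hR' (univ.map Function.Embedding.inl) (fun e => by simp)
      (fun X Y => hno (fun i => X (Sum.inl i)) (fun j => Y (Sum.inr j)))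
    rwa [card_map, card_univ] at h1

end Pool.Agent.Results.MP_325f1f_lc.LocalReductions
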