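import Pool.Agent.R900.UG.Small

set_option autoImplicit false

/-!
# Unique games with small soundness and the mixed hierarchy

Known approximation algorithms which work for every alphabet (Arora, Barak, Steurer; Barak,
Raghavendra, Steurer) find, for unique games of value at least `1 - ε` on `n` vertices, labelings
which satisfy a constant fraction of the edges, with `n ^ O(ε ^ (1/3))` (or `n ^ O(ε log (1/ε))`,
starting result `SharpTradeoff`) levels of a hierarchy. Here the other regime of the conjecture is
treated, that of small soundness `δ`: it is shown how the number of levels decreases when `δ` tends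
to zero. If

  `x = 24576 ε / log (1/δ) ≤ 1`,

then `2 ^ 20 n ^ (8 x log (2/x))` levels of the mixed hierarchy (Sherali-Adams plus the basic
semidefinite program) are enough to find a labeling which satisfies a fraction `δ / 2 ^ 13` of the
edges, where `n` is the number of vertices on the smaller side. The bound does not depend on the
alphabet, so that it also holds for alphabets which grow with the number of vertices. For example
polylogarithmically many levels give a fraction `n ^ (-C ε)`.

The proof uses the pairs of edges with a common end vertex in `W`: it conditions the solution on the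
labels of random vertices (walks along such pairs), from which it gets sets of vertices on which
one labeling satisfies a fraction `δ / 1024` of the pairs (`Pool/Agent/TH522/US/Round.lean`), and
then the pieces are put together and extended to `W` (`Pool/Agent/TH522/DG/Main.lean`).
-/

namespace Pool.Agent.Results.MP_325f1f_lc.SmallSoundness

open Finset

/-- `f` depends only on the labels of the vertices in `S`. -/
def DependsOn {V A : Type} (S : Finset V) (f : (V → A) → ℝ) : Prop :=
  ∀ x y : V → A, (∀ v ∈ S, x v = y v) → f x = f y

/-- `L` is a solution of level `k` of the mixed hierarchy: a normalised linear functional on the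
functions of a labeling which is nonnegative on all nonnegative functions of at most `k + 2` labels
(Sherali-Adams), and such that after conditioning on at most `k` labels (the weight `g`) the matrix
of the pair moments is positive semidefinite (basic semidefinite program). Only the values of `L`
on functions of at most `k + 2` labels matter. -/
structure IsMixed {V A : Type} [Fintype V] (k : ℕ) (L : ((V → A) → ℝ) →ₗ[ℝ] ℝ) : Prop where
  one : L (fun _ => 1) = 1
  nonneg : ∀ S : Finset V, S.card ≤ k + 2 → ∀ f : (V → A) → ℝ, DependsOn S f → (∀ x, 0 ≤ f x) →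
    0 ≤ L f
  psd : ∀ S : Finset V, S.card ≤ k → ∀ g : (V → A) → ℝ, DependsOn S g → (∀ x, 0 ≤ g x) →
    ∀ c : V → A → ℝ, 0 ≤ L (fun x => g x * (∑ v, c v (x v)) ^ 2)

/-- Let a unique game have the vertices `U` and `W`, the edges `E` (with ends `s e`, `t e` and
permutation `π e`) and any finite alphabet `A`. Let `0 < ε ≤ 1/49152`, `1/|U|² < δ < 1` and
`x = 24576 ε / log (1/δ) ≤ 1`. If `k ≥ 2 ^ 20 |U| ^ (8 x log (2/x))` and level `k + 1` of the mixed
hierarchy has a solution of value at least `1 - ε`, then some labeling satisfies at least a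
fraction `δ / 2 ^ 13` of the edges. -/
theorem result (U W A E : Type) [Fintype U] [Fintype W] [Fintype A] [DecidableEq A] [Fintype E]
    (s : E → U) (t : E → W) (π : E → Equiv.Perm A) (ε δ x : ℝ) (k : ℕ)
    (L : ((U ⊕ W → A) → ℝ) →ₗ[ℝ] ℝ) (hε : 0 < ε) (hε1 : 49152 * ε ≤ 1)
    (hδ : 1 / (Fintype.card U : ℝ) ^ 2 < δ) (hδ1 : δ < 1)
    (hx : x = 24576 * ε / Real.log (1 / δ)) (hx1 : x ≤ 1)
    (hk : 2 ^ 20 * (Fintype.card U : ℝ) ^ (8 * (x * Real.log (2 / x))) ≤ k)
    (hL : IsMixed (k + 1) L)
    (hval : (1 - ε) * (Fintype.card E : ℝ) ≤
      ∑ e, L (fun z => if π e (z (Sum.inl (s e))) = z (Sum.inr (t e)) then 1 else 0)) :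
    ∃ (X : U → A) (Y : W → A), δ / 2 ^ 13 * (Fintype.card E : ℝ)
      ≤ ((univ.filter fun e => π e (X (s e)) = Y (t e)).card : ℝ) := by
  classical
  have hδ0 : 0 < δ := lt_of_le_of_lt (by positivity) hδ
  have hl0 : 0 < Real.log (1 / δ) := Real.log_pos (by rw [lt_div_iff₀ hδ0]; linarith)
  have hl1 : Real.exp (-Real.log (1 / δ)) = δ := by
    rw [one_div, Real.log_inv, neg_neg, Real.exp_log hδ0]
  rcases isEmpty_or_nonempty U with hU | hU
  · have hE : IsEmpty E := ⟨fun e => hU.false (s e)⟩
    obtain ⟨z⟩ : Nonempty (U ⊕ W → A) := by
      by_contra hcon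
      rw [not_nonempty_iff] at hcon
      have h1 := hL.one
      have h2 : (fun _ : U ⊕ W → A => (1 : ℝ)) = 0 := by
        funext z
        exact (hcon.false z).elim
      rw [h2, map_zero] at h1
      exact zero_ne_one h1
    exact ⟨fun u => z (Sum.inl u), fun w => z (Sum.inr w), by simp⟩
  have hU0 : (0 : ℝ) < Fintype.card U := by exact_mod_cast Fintype.card_pos
  have hl2 : Real.log (1 / δ) < 2 * Real.log (Fintype.card U) := by
    have h1 : Real.log (1 / δ) < Real.log ((Fintype.card U : ℝ) ^ 2) := by
      refine Real.log_lt_log (by positivity) ?_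
      rw [div_lt_iff₀ hδ0]
      rw [div_lt_iff₀ (by positivity)] at hδ
      linarith
    rw [Real.log_pow] at h1
    exact_mod_cast h1
  have hinj : Function.Injective (Sum.inl : U → U ⊕ W) := Sum.inl_injective
  obtain ⟨X, Y, hXY⟩ := Pool.Agent.R900.UG.small_core (Pool.Agent.R900.UG.hier_mixed1 (U ⊕ W) A)
    (fun _ _ h => Pool.Agent.R900.UG.tri_mixed h) (fun e => Sum.inl (s e)) (fun e => Sum.inr (t e)) π
    (univ.image Sum.inl) (fun e => mem_image_of_mem _ (mem_univ _)) (Fintype.card U)
    (by rw [card_image_of_injective _ hinj, card_univ]) ε (Real.log (1 / δ)) x hε hε1 hx hx1 hl0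
    hl2 k hk L ⟨hL.one, hL.nonneg, hL.psd⟩ hval
  rw [hl1] at hXY
  exact ⟨fun u => X (Sum.inl u), fun w => Y (Sum.inr w), hXY⟩

end Pool.Agent.Results.MP_325f1f_lc.SmallSoundness
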